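import Pool.Agent.Y164.HG.Stm
import Pool.Agent.Y713.SE.Loc

/-!
The ideal class group of the affine curve injects into the ideal class group over a Galois
extension (HG-INJ).
-/

set_option autoImplicit false
set_option linter.all false

open Polynomial

namespace Pool.Agent.Y288.HG.Inj

open Pool.Agent.Y713.SE
open Pool.Agent.Y713.SE.Dat

variable {ℓ n : ℕ} {K : Type} [Field K] (D : Dat ℓ n K)

/-- base change of ideals is injective -/
theorem eq_of_le {L L' : Type} [Field L] [Algebra K L] [Field L'] [Algebra K L']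
    (φ : L →ₐ[K] L') {I M : Ideal (D.base L).A} (hI : I ≠ ⊥)
    (hle : I ≤ M) (h : D.mI φ I = D.mI φ M) : I = M := by
  have hM : M ≠ ⊥ := fun h0 => hI (by rw [h0] at hle; exact le_bot_iff.1 hle)
  have h1 := congrArg (D.base L').U h
  rw [D.U_mI φ hI, D.U_mI φ hM] at h1
  have h2 := Polynomial.map_injective (φ : L →+* L') (φ : L →+* L').injective h1
  obtain ⟨N, hN⟩ := Ideal.dvd_iff_le.2 hle
  have hN0 : N ≠ ⊥ := by
    rintro rfl
    rw [Ideal.mul_bot] at hN
    exact hI hN
  have h3 : (D.base L).U I = (D.base L).U M * (D.base L).U N := by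
    conv_lhs => rw [hN]
    exact (D.base L).U_mul hM hN0
  have h4 : (D.base L).U N = 1 := by
    apply mul_left_cancel₀ ((D.base L).U_ne M)
    rw [mul_one, ← h3, h2]
  have h5 := (D.base L).NI_eq hN0
  rw [h4, map_one, Ideal.span_singleton_one] at h5
  have h6 : (D.base L).sI 0 N ∣ (D.base L).NI N :=
    Finset.dvd_prod_of_mem _ (Finset.mem_range.2 D.pos)
  rw [(D.base L).sI_zero, h5, Ideal.dvd_iff_le, top_le_iff] at h6
  rw [hN, h6, Ideal.mul_top]

theorem mI_inj {L L' : Type} [Field L] [Algebra K L] [Field L'] [Algebra K L']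
    (φ : L →ₐ[K] L') {I J : Ideal (D.base L).A} (hI : I ≠ ⊥) (hJ : J ≠ ⊥)
    (h : D.mI φ I = D.mI φ J) : I = J := by
  have hs : D.mI φ (I ⊔ J) = D.mI φ I ⊔ D.mI φ J := Ideal.map_sup _ _ _
  have h1 : I = I ⊔ J := eq_of_le D φ hI le_sup_left (by rw [hs, ← h, sup_idem])
  have h2 : J = I ⊔ J := eq_of_le D φ hJ le_sup_right (by rw [hs, h, sup_idem])
  rw [h1, ← h2]

/-- an element with all coordinates fixed comes from the base field -/
theorem descend {L : Type} [Field L] [Algebra K L] [IsGalois K L] {b : (D.base L).A}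
    (h : ∀ σ : L ≃ₐ[K] L, D.mp (au σ) b = b) :
    ∃ b0 : (D.base K).A, D.mp (Algebra.ofId K L) b0 = b := by
  have h1 : ∀ j, ∃ p : K[X], p.map (algebraMap K L) = (D.base L).c j b := by
    intro j
    have h2 : (D.base L).c j b ∈ Polynomial.lifts (algebraMap K L) := by
      rw [Polynomial.lifts_iff_coeff_lifts]
      intro t
      have h3 : ∀ σ : L ≃ₐ[K] L, σ (((D.base L).c j b).coeff t) = ((D.base L).c j b).coeff t := by
        intro σ
        have h4 := D.c_mp (au σ) b j
        rw [h σ] at h4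
        conv_rhs => rw [h4]
        rw [Polynomial.coeff_map]
        rfl
      obtain ⟨x, hx⟩ := exists_F h3
      exact ⟨x, hx⟩
    obtain ⟨p, hp⟩ := (Polynomial.mem_lifts _).1 h2
    exact ⟨p, hp⟩
  choose p hp using h1
  refine ⟨∑ j : Fin ℓ, p j • (D.base K).y ^ (j : ℕ), ?_⟩
  apply (D.base L).ext_c
  intro j
  rw [D.c_mp, (D.base K).c_sum, ← hp j]
  rfl

theorem t : Pool.Agent.Y164.HG.S_INJ := by
  intro ℓ n K _ D L _ _ _
  rw [injective_iff_map_eq_one]
  intro c hc
  obtain ⟨I0, hI0, rfl⟩ := exists_cl c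
  have hmI := D.mI_ne (Algebra.ofId K L) hI0
  rw [D.mC_cl (Algebra.ofId K L) hI0, cl_of hmI, ClassGroup.mk0_eq_one_iff] at hc
  obtain ⟨a, ha⟩ := hc.principal
  have ha' : D.mI (Algebra.ofId K L) I0 = Ideal.span {a} := ha
  have ha0 : a ≠ 0 := by
    rintro rfl
    rw [Ideal.span_singleton_eq_bot.2 rfl] at ha'
    exact hmI ha'
  obtain ⟨j0, hj0⟩ : ∃ j, (D.base L).c j a ≠ 0 := by
    by_contra hcon
    push Not at hcon
    apply ha0
    apply (D.base L).ext_c
    intro j
    rw [hcon j, map_zero]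
  set lc := ((D.base L).c j0 a).leadingCoeff with hlc
  have hlc0 : lc ≠ 0 := leadingCoeff_ne_zero.2 hj0
  set b : (D.base L).A := (C lc⁻¹ : L[X]) • a with hb
  have hcb : ∀ j, (D.base L).c j b = C lc⁻¹ * (D.base L).c j a := by
    intro j
    rw [hb, map_smul, smul_eq_mul]
  have hbl : ((D.base L).c j0 b).leadingCoeff = 1 := by
    rw [hcb, leadingCoeff_mul, leadingCoeff_C, ← hlc, inv_mul_cancel₀ hlc0]
  have hbspan : Ideal.span {b} = Ideal.span {a} := by
    rw [hb, Algebra.smul_def, Ideal.span_singleton_mul_left_unit]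
    exact (Polynomial.isUnit_C.2 (IsUnit.mk0 _ (inv_ne_zero hlc0))).map _
  have hb0 : b ≠ 0 := by
    intro h0
    rw [h0, map_zero, leadingCoeff_zero] at hbl
    exact zero_ne_one hbl
  have hfix : ∀ σ : L ≃ₐ[K] L, D.mp (au σ) b = b := by
    intro σ
    have h1 : D.mI (au σ) (Ideal.span {b}) = Ideal.span {b} := by
      rw [hbspan, ← ha', D.mI_mI]
      congr 1
      exact Subsingleton.elim _ _
    rw [D.mI_span, Ideal.span_singleton_eq_span_singleton] at h1
    obtain ⟨u, hu⟩ := h1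
    obtain ⟨κ, hκ, huκ⟩ := (D.base L).unit_const u.isUnit
    rw [huκ] at hu
    have h2 : ∀ j, ((D.base L).c j b).map (au σ : L →+* L) * C κ = (D.base L).c j b := by
      intro j
      have h3 := congrArg ((D.base L).c j) hu
      rw [mul_comm, ← Algebra.smul_def, map_smul, D.c_mp, smul_eq_mul, mul_comm] at h3
      exact h3
    have h4 := congrArg leadingCoeff (h2 j0)
    rw [leadingCoeff_mul, leadingCoeff_C, leadingCoeff_map, hbl, map_one, one_mul] at h4
    apply (D.base L).ext_c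
    intro j
    have h5 := h2 j
    rw [h4, C_1, mul_one] at h5
    rw [D.c_mp, h5]
  obtain ⟨b0, hb0'⟩ := descend D hfix
  have hb00 : b0 ≠ 0 := by
    rintro rfl
    rw [map_zero] at hb0'
    exact hb0 hb0'.symm
  have h6 : I0 = Ideal.span {b0} := by
    apply mI_inj D (Algebra.ofId K L) hI0 ((D.base K).span_ne hb00)
    rw [ha', D.mI_span, hb0', hbspan]
  rw [h6, cl_span hb00]

end Pool.Agent.Y288.HG.Inj
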