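import Pool.Agent.Y164.HG.Stm
import Pool.Agent.Y713.SE.Twist

/-!
Representations modulo squares of elements of `k(t)` supported on given primes (HG-REP).
-/

set_option autoImplicit false
set_option linter.all false

open Polynomial IsDedekindDomain

namespace Pool.Agent.Y288.HG.Rep

open Pool.Agent.Y713.SE Pool.Agent.Y164.HG
open Pool.Agent.Y164.PS (L ch el Fam el' el_eq el'_not_dvd L_el' Lm L_eq_zero_iff ch_eq_zero_iff)

section
variable {k K : Type} [Field k] [Fintype k] [DecidableEq k] [Field K] [Algebra k[X] K]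
  [IsFractionRing k[X] K]
variable {κ : Type} [Fintype κ]

theorem even_val {R : κ → k[X]} (hR : Fam R) {d : K} {r : k} {n : κ → ℕ} {y : K} (hr : r ≠ 0)
    (hy : y ≠ 0) (hd : d = algebraMap k[X] K (el R r n) * y ^ 2) (x : κ)
    (h : Pw 2 ((hp (R x) (hR.irr x)).valuation K d)) : 2 ∣ n x := by
  apply pw_exp_pow Nat.prime_two
  have hnm : el' R x r n ∉ (hp (R x) (hR.irr x)).asIdeal := fun hm =>
    el'_not_dvd hR x hr n ((mem_hp _ _).1 hm)
  have hv : (hp (R x) (hR.irr x)).valuation K d =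
      (WithZero.exp (-1 : ℤ)) ^ n x * ((hp (R x) (hR.irr x)).valuation K y) ^ 2 := by
    rw [hd, el_eq x, map_mul, map_mul, map_mul, map_pow, map_pow, map_pow, val_hp_self,
      (val_eq_one_iff _ _).2 hnm, mul_one]
  have hvy : (hp (R x) (hR.irr x)).valuation K y ≠ 0 := (Valuation.ne_zero_iff _).2 hy
  rw [hv] at h
  have := h.mul (Pw.pow (ℓ := 2) ((hp (R x) (hR.irr x)).valuation K y)).inv
  rwa [mul_assoc, mul_inv_cancel₀ (pow_ne_zero _ hvy), mul_one] at this

theorem local_sq {R : κ → k[X]} (hR : Fam R) (hk : ringChar k ≠ 2) {d : K} {r : k} {n : κ → ℕ}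
    {y : K} (hr : r ≠ 0) (hy : y ≠ 0) (hd : d = algebraMap k[X] K (el R r n) * y ^ 2) (x : κ)
    (h : ∃ z : (hp (R x) (hR.irr x)).adicCompletion K, algebraMap K _ d = z ^ 2) :
    2 ∣ n x ∧ Lm R r n (R x) = 0 := by
  set v := hp (R x) (hR.irr x) with hvdef
  obtain ⟨z, hz⟩ := h
  have hpw : Pw 2 (v.valuation K d) := by
    refine ⟨Valued.v z, ?_⟩
    rw [← val_coe, hz, map_pow]
  have he := even_val hR hr hy hd x hpw
  refine ⟨he, ?_⟩
  obtain ⟨b, hb⟩ := he
  have hRK : algebraMap k[X] K (R x) ≠ 0 := by simpa using (hR.mon x).ne_zero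
  set w : K := (algebraMap k[X] K (R x)) ^ b * y with hw
  have hw0 : w ≠ 0 := mul_ne_zero (pow_ne_zero _ hRK) hy
  set e := el' R x r n with hedef
  have e2 : d = algebraMap k[X] K e * w ^ 2 := by
    rw [hd, el_eq x, map_mul, map_pow, hb, hw, mul_pow, ← pow_mul, mul_comm b 2]
    ring
  have hxr : ∃ x' : v.adicCompletion K,
      algebraMap K (v.adicCompletion K) (algebraMap k[X] K e) = x' ^ 2 := by
    refine ⟨z / algebraMap K _ w, ?_⟩
    have e3 : algebraMap K (v.adicCompletion K) d =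
        algebraMap K (v.adicCompletion K) (algebraMap k[X] K e) *
          (algebraMap K (v.adicCompletion K) w) ^ 2 := by
      rw [← map_pow (algebraMap K (v.adicCompletion K)),
        ← map_mul (algebraMap K (v.adicCompletion K)), ← e2]
    rw [div_pow, ← hz, e3, mul_div_cancel_right₀]
    exact pow_ne_zero _ ((_root_.map_ne_zero _).2 hw0)
  have hnd : ¬ R x ∣ e := el'_not_dvd hR x hr n
  have hrv : e ∉ v.asIdeal := fun hm => hnd ((mem_hp _ _).1 hm)
  obtain ⟨a, ha⟩ := pow_unit two_ne_zero v hrv hxr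
  rw [hvdef, mem_hp] at ha
  rw [← L_el' hR x hr n, L_eq_zero_iff hk (hR.mon x) (hR.irr x) hnd]
  refine ⟨a, ?_⟩
  have := (dvd_neg (a := R x)).2 ha
  rwa [neg_sub] at this

theorem global_sq {R : κ → k[X]} {d : K} (h : IsRep R d 0 0) : ∃ z : K, d = z ^ 2 := by
  obtain ⟨r, n, y, hr, hy, hc, hn, hd⟩ := h
  obtain ⟨s, hs⟩ := (ch_eq_zero_iff hr).1 hc
  have hn2 : ∀ x, ∃ m, n x = 2 * m := fun x => by
    have h1 := hn x
    rw [Pi.zero_apply, ZMod.natCast_eq_zero_iff] at h1
    exact h1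
  choose m hm using hn2
  refine ⟨algebraMap k[X] K (el R s m) * y, ?_⟩
  have e : el R r n = (el R s m) ^ 2 := by
    rw [el, el, mul_pow, ← Finset.prod_pow, hs, ← C_pow, pow_two s]
    congr 1
    refine Finset.prod_congr rfl fun x _ => ?_
    rw [hm x, ← pow_mul, mul_comm 2]
  rw [hd, e, map_pow, mul_pow]

theorem exists_rep {R : κ → k[X]} (hR : Fam R) {d : K} (hd : d ≠ 0)
    (h : ∀ v : HeightOneSpectrum k[X], (∀ x, R x ∉ v.asIdeal) → Pw 2 (v.valuation K d)) :
    ∃ c u, IsRep R d c u := by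
  classical
  obtain ⟨c, a, z, hc, hz, e⟩ := rep (K := K) Nat.prime_two (Finset.univ.image R) (fun π hπ => by
      obtain ⟨x, -, rfl⟩ := Finset.mem_image.1 hπ
      exact hR.irr x) hd (fun v hv => h v fun x =>
        hv _ (Finset.mem_image_of_mem _ (Finset.mem_univ x)))
  refine ⟨ch c, fun x => (a (R x) : ZMod 2), c, fun x => a (R x), z, hc, hz, rfl, fun x => rfl, ?_⟩
  rw [e, el, Finset.prod_image (fun x _ y _ hxy => hR.inj hxy)]

end

theorem t : Pool.Agent.Y164.HG.S_REP := by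
  intro k K _ _ _ _ _ _ κ _ R hR hk
  refine ⟨?_, ?_, ?_, ?_⟩
  · rintro d c u ⟨r, n, y, hr, hy, hc, hn, hd⟩ x hpw
    rw [← hn x, ZMod.natCast_eq_zero_iff]
    exact even_val hR hr hy hd x hpw
  · rintro d c u ⟨r, n, y, hr, hy, hc, hn, hd⟩ x hz
    obtain ⟨h1, h2⟩ := local_sq hR hk hr hy hd x hz
    refine ⟨?_, ?_⟩
    · rw [← hn x, ZMod.natCast_eq_zero_iff]
      exact h1
    · rw [← h2, Lm, hc]
      congr 1
      exact Finset.sum_congr rfl fun y _ => by rw [hn y]
  · intro d h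
    exact global_sq h
  · intro d hd h
    exact exists_rep hR hd h

end Pool.Agent.Y288.HG.Rep
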